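import Pool.Agent.H62.S7.Gauss
import Pool.Agent.H59.S5.Param

/-!
# Jacobi fields: the curvature term, and the case of zero curvature
-/

set_option autoImplicit false
set_option linter.unusedSectionVars false

open scoped Topology ContDiff InnerProductSpace
open Set Filter

namespace Pool.Agent.H62.S7

open Pool.Agent.H91.GE Pool.Agent.H59.LV Pool.Agent.H59.ND Pool.Agent.H59.Zar

variable {E F : Type*} [NormedAddCommGroup E] [InnerProductSpace ℝ E] [FiniteDimensional ℝ E]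
  [NormedAddCommGroup F] [InnerProductSpace ℝ F] [FiniteDimensional ℝ F]
  {S : Set E} {A : E × E → E} {K K₂ : NNReal} {Φ : ℝ → E × E → E × E} {n : ℕ}
  {O : Set E} {f : E → F}

/-- The tangential part of `K.2` (covariant derivative). -/
noncomputable def tau (A : E × E → E) (w K : E × E) : E :=
  K.2 - (1 / 2 : ℝ) • fderiv ℝ A w (0, K.1)

theorem tau_mem (h : GFlow F S A K K₂ Φ) {w a : E × E} (hw : w ∈ UT S) (ha : a ∈ ZT (UT S) w) :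
    tau A w a ∈ ZT S w.1 := tan_part h hw ha

theorem snd_eq_tau (h : GFlow F S A K K₂ Φ) (hf : IsLoc S O f) {w a : E × E} (hw : w ∈ UT S)
    (hO : w.1 ∈ O) (ha : a ∈ ZT (UT S) w) : a.2 = tau A w a + II f w.1 a.1 w.2 := by
  unfold tau
  rw [dA_eq_II h hf hw hO (fst_mem_TS hw ha)]
  abel

/-- **The Jacobi equation** for the tangential part. -/
theorem hasDerivAt_tau (h : GFlow F S A K K₂ Φ) (hf : IsLoc S O f) {w a : E × E} (hw : w ∈ UT S)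
    (ha : a ∈ ZT (UT S) w) {t : ℝ} (hO : (Φ t w).1 ∈ O) :
    ∃ τ' : E, HasDerivAt (fun t => tau A (Φ t w) (fderiv ℝ (Φ t) w a)) τ' t ∧
      ∀ e ∈ ZT S (Φ t w).1, ⟪τ', e⟫_ℝ =
        ⟪II f (Φ t w).1 (fderiv ℝ (Φ t) w a).1 (Φ t w).2, II f (Φ t w).1 (Φ t w).2 e⟫_ℝ
          - ⟪II f (Φ t w).1 (Φ t w).2 (Φ t w).2, II f (Φ t w).1 (fderiv ℝ (Φ t) w a).1 e⟫_ℝ := by
  have hwt : ∀ t, Φ t w ∈ UT S := fun t => flow_mem_UT h hw t
  have hat : ∀ t, fderiv ℝ (Φ t) w a ∈ ZT (UT S) (Φ t w) := fun t => flow_ZTU_mem h ha t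
  have hAd : ContDiff ℝ ∞ A := h.field.smooth
  have hAd' : ContDiff ℝ ∞ (fderiv ℝ A) := hAd.fderiv_right (by norm_num)
  have d0 := hasDerivAt_flow h w t
  have d1 := hasDerivAt_jac h w a t
  have d2 : HasDerivAt (fun t => (fderiv ℝ (Φ t) w a).1) (fderiv ℝ (Φ t) w a).2 t :=
    (ContinuousLinearMap.fst ℝ E E).hasFDerivAt.comp_hasDerivAt t d1
  have d3 : HasDerivAt (fun t => (fderiv ℝ (Φ t) w a).2)
      (fderiv ℝ A (Φ t w) (fderiv ℝ (Φ t) w a)) t :=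
    (ContinuousLinearMap.snd ℝ E E).hasFDerivAt.comp_hasDerivAt t d1
  have d4 : HasDerivAt (fun t => (Φ t w).1) (Φ t w).2 t :=
    (ContinuousLinearMap.fst ℝ E E).hasFDerivAt.comp_hasDerivAt t d0
  have d5 : HasDerivAt (fun t => fderiv ℝ A (Φ t w))
      (fderiv ℝ (fderiv ℝ A) (Φ t w) ((Φ t w).2, A (Φ t w))) t :=
    HasFDerivAt.comp_hasDerivAt (l := fderiv ℝ A) (f := fun t => Φ t w) t
      ((hAd'.differentiable (by simp) (Φ t w)).hasFDerivAt) d0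
  have d6 : HasDerivAt (fun t => (((0 : E), (fderiv ℝ (Φ t) w a).1) : E × E))
      ((0 : E), (fderiv ℝ (Φ t) w a).2) t := (hasDerivAt_const t (0 : E)).prodMk d2
  have d7 : HasDerivAt (fun t => (1 / 2 : ℝ) • fderiv ℝ A (Φ t w) (0, (fderiv ℝ (Φ t) w a).1))
      _ t := (d5.clm_apply d6).const_smul (1 / 2 : ℝ)
  refine ⟨_, d3.sub d7, fun e he => ?_⟩
  have hx := fst_mem_TSet (hwt t).1
  have he' := (mem_TS' hf hx hO).1 he
  have hev : ∀ᶠ s in 𝓝 t, (Φ s w).1 ∈ O :=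
    d4.continuousAt.preimage_mem_nhds (hf.isOpen.mem_nhds hO)
  have hn : ∀ᶠ s in 𝓝 t, ∀ e, fderiv ℝ f (Φ s w).1 e = 0 →
      ⟪(1 / 2 : ℝ) • fderiv ℝ A (Φ s w) (0, (fderiv ℝ (Φ s) w a).1), e⟫_ℝ = 0 := by
    filter_upwards [hev] with s hs e he
    rw [real_inner_smul_left, inner_dA h (hwt s) (fst_mem_TS (hwt s) (hat s))
      ((mem_TS' hf (fst_mem_TSet (hwt s).1) hs).2 he), mul_zero]
  have h1 := weingarten hf d7 d4 hO hn he'
  have h2 := gauss h hf (hwt t) hO (hat t) he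
  rw [inner_sub_left, h1, h2, A_eq h hf (hwt t) hO,
    dA_eq_II h hf (hwt t) hO (fst_mem_TS (hwt t) (hat t))]
  ring

/-- The derivative of `⟪J, J'⟫`. -/
theorem hasDerivAt_inner (h : GFlow F S A K K₂ Φ) (hf : IsLoc S O f) {w a : E × E} (hw : w ∈ UT S)
    (ha : a ∈ ZT (UT S) w) {t : ℝ} (hO : (Φ t w).1 ∈ O) :
    HasDerivAt (fun t => ⟪(fderiv ℝ (Φ t) w a).1, (fderiv ℝ (Φ t) w a).2⟫_ℝ)
      (⟪tau A (Φ t w) (fderiv ℝ (Φ t) w a), tau A (Φ t w) (fderiv ℝ (Φ t) w a)⟫_ℝ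
        + ⟪II f (Φ t w).1 (fderiv ℝ (Φ t) w a).1 (Φ t w).2,
            II f (Φ t w).1 (fderiv ℝ (Φ t) w a).1 (Φ t w).2⟫_ℝ
        - ⟪II f (Φ t w).1 (Φ t w).2 (Φ t w).2,
            II f (Φ t w).1 (fderiv ℝ (Φ t) w a).1 (fderiv ℝ (Φ t) w a).1⟫_ℝ) t := by
  have hwt : Φ t w ∈ UT S := flow_mem_UT h hw t
  have hat : fderiv ℝ (Φ t) w a ∈ ZT (UT S) (Φ t w) := flow_ZTU_mem h ha t
  have d1 := hasDerivAt_jac h w a t
  have d2 : HasDerivAt (fun t => (fderiv ℝ (Φ t) w a).1) (fderiv ℝ (Φ t) w a).2 t :=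
    (ContinuousLinearMap.fst ℝ E E).hasFDerivAt.comp_hasDerivAt t d1
  have d3 : HasDerivAt (fun t => (fderiv ℝ (Φ t) w a).2)
      (fderiv ℝ A (Φ t w) (fderiv ℝ (Φ t) w a)) t :=
    (ContinuousLinearMap.snd ℝ E E).hasFDerivAt.comp_hasDerivAt t d1
  have d4 := d2.inner ℝ d3
  have ha1 := fst_mem_TS hwt hat
  have h2 := gauss h hf hwt hO hat ha1
  have h3 := snd_eq_tau h hf hwt hO hat
  have h4 : ⟪II f (Φ t w).1 (fderiv ℝ (Φ t) w a).1 (Φ t w).2,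
      tau A (Φ t w) (fderiv ℝ (Φ t) w a)⟫_ℝ = 0 :=
    inner_II _ _ ((mem_TS' hf (fst_mem_TSet hwt.1) hO).1 (tau_mem h hwt hat))
  have h5 : ⟪(fderiv ℝ (Φ t) w a).2, (fderiv ℝ (Φ t) w a).2⟫_ℝ
      = ⟪tau A (Φ t w) (fderiv ℝ (Φ t) w a), tau A (Φ t w) (fderiv ℝ (Φ t) w a)⟫_ℝ
        + ⟪II f (Φ t w).1 (fderiv ℝ (Φ t) w a).1 (Φ t w).2,
            II f (Φ t w).1 (fderiv ℝ (Φ t) w a).1 (Φ t w).2⟫_ℝ := by
    have h4' : ⟪tau A (Φ t w) (fderiv ℝ (Φ t) w a),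
        II f (Φ t w).1 (fderiv ℝ (Φ t) w a).1 (Φ t w).2⟫_ℝ = 0 := by
      rw [real_inner_comm]; exact h4
    rw [h3, inner_add_left, inner_add_right, inner_add_right, h4, h4']
    ring
  rw [real_inner_comm] at h2
  rw [A_eq h hf hwt hO] at h2
  have h6 : ⟪(fderiv ℝ (Φ t) w a).1, fderiv ℝ A (Φ t w) (fderiv ℝ (Φ t) w a)⟫_ℝ
      + ⟪(fderiv ℝ (Φ t) w a).2, (fderiv ℝ (Φ t) w a).2⟫_ℝ
      = ⟪tau A (Φ t w) (fderiv ℝ (Φ t) w a), tau A (Φ t w) (fderiv ℝ (Φ t) w a)⟫_ℝ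
        + ⟪II f (Φ t w).1 (fderiv ℝ (Φ t) w a).1 (Φ t w).2,
            II f (Φ t w).1 (fderiv ℝ (Φ t) w a).1 (Φ t w).2⟫_ℝ
        - ⟪II f (Φ t w).1 (Φ t w).2 (Φ t w).2,
            II f (Φ t w).1 (fderiv ℝ (Φ t) w a).1 (fderiv ℝ (Φ t) w a).1⟫_ℝ := by
    rw [h2, h5]; ring
  rw [h6] at d4
  exact d4

/-- The manifold has curvature zero. -/
def Flat0 (F : Type*) [NormedAddCommGroup F] [InnerProductSpace ℝ F] [FiniteDimensional ℝ F]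
    (S : Set E) : Prop :=
  ∀ x ∈ S, ∃ (O : Set E) (f : E → F), x ∈ O ∧ IsLoc S O f ∧ ∀ v ∈ ZT S x, ∀ a ∈ ZT S x,
    ⟪II f x v v, II f x a a⟫_ℝ = ⟪II f x a v, II f x a v⟫_ℝ

theorem flat_polar (hf : IsLoc S O f) {x : E} (hO : x ∈ O)
    (hflat : ∀ v ∈ ZT S x, ∀ a ∈ ZT S x, ⟪II f x v v, II f x a a⟫_ℝ = ⟪II f x a v, II f x a v⟫_ℝ)
    {v a b : E} (hv : v ∈ ZT S x) (ha : a ∈ ZT S x) (hb : b ∈ ZT S x) :
    ⟪II f x v v, II f x a b⟫_ℝ = ⟪II f x a v, II f x v b⟫_ℝ := by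
  have h1 := hflat v hv (a + b) ((ZT S x).add_mem ha hb)
  have h2 := hflat v hv a ha
  have h3 := hflat v hv b hb
  simp only [II_add_left, II_add_right, inner_add_right, inner_add_left] at h1
  have h4 : II f x b a = II f x a b := II_symm hf hO b a
  have h5 : II f x b v = II f x v b := II_symm hf hO b v
  rw [h4, h5] at h1
  rw [h5] at h3
  have h6 := real_inner_comm (II f x a v) (II f x v b)
  linarith

/-- **Jacobi fields in curvature zero.** -/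
theorem lin_of_flat (h : GFlow F S A K K₂ Φ) (hflat : Flat0 F S) :
    Pool.Agent.H59.S5.Lin Φ S := by
  intro w hw ξ hξ h0
  have ha : (((0 : E), ξ) : E × E) ∈ ZT (UT S) w := (ver_mem_iff h.sub hw).2 ⟨hξ, h0⟩
  set a : E × E := ((0 : E), ξ) with hadef
  have hwt : ∀ t, Φ t w ∈ UT S := fun t => flow_mem_UT h hw t
  have hat : ∀ t, fderiv ℝ (Φ t) w a ∈ ZT (UT S) (Φ t w) := fun t => flow_ZTU_mem h ha t
  have hid : fderiv ℝ (Φ 0) w a = a := by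
    have h1 : Φ 0 = fun w => w := funext fun w => h.flow.zero w
    rw [h1, fderiv_id']
    rfl
  -- the covariant derivative has constant length
  have e1 : ∀ t, HasDerivAt (fun t => ⟪tau A (Φ t w) (fderiv ℝ (Φ t) w a),
      tau A (Φ t w) (fderiv ℝ (Φ t) w a)⟫_ℝ) 0 t := by
    intro t
    obtain ⟨O, f, hO, hf, hfl⟩ := hflat _ (fst_mem_TSet (hwt t).1)
    obtain ⟨τ', h1, h2⟩ := hasDerivAt_tau h hf hw ha hO
    have h3 := h2 _ (tau_mem h (hwt t) (hat t))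
    rw [flat_polar hf hO hfl (snd_mem_TS h.sub (hwt t)) (fst_mem_TS (hwt t) (hat t))
      (tau_mem h (hwt t) (hat t)), sub_self] at h3
    have h4 := h1.inner ℝ h1
    have h5 := h3
    rw [real_inner_comm] at h5
    rw [h3, h5, add_zero] at h4
    exact h4
  have e2 : ∀ t, ⟪tau A (Φ t w) (fderiv ℝ (Φ t) w a),
      tau A (Φ t w) (fderiv ℝ (Φ t) w a)⟫_ℝ = ‖ξ‖ ^ 2 := by
    intro t
    have h1 := is_const_of_deriv_eq_zero (f := fun t => ⟪tau A (Φ t w) (fderiv ℝ (Φ t) w a),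
      tau A (Φ t w) (fderiv ℝ (Φ t) w a)⟫_ℝ) (fun t => (e1 t).differentiableAt)
      (fun t => (e1 t).deriv) t 0
    rw [h1]
    show ⟪tau A (Φ 0 w) (fderiv ℝ (Φ 0) w a), tau A (Φ 0 w) (fderiv ℝ (Φ 0) w a)⟫_ℝ = _
    rw [hid, h.flow.zero]
    have h2 : tau A w a = ξ := by
      unfold tau
      have h3 : (((0 : E), a.1) : E × E) = 0 := rfl
      rw [h3, map_zero, smul_zero, sub_zero]
    rw [h2, real_inner_self_eq_norm_sq]
  have e3 : ∀ t, HasDerivAt (fun t => ⟪(fderiv ℝ (Φ t) w a).1, (fderiv ℝ (Φ t) w a).2⟫_ℝ)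
      (‖ξ‖ ^ 2) t := by
    intro t
    obtain ⟨O, f, hO, hf, hfl⟩ := hflat _ (fst_mem_TSet (hwt t).1)
    have h1 := hasDerivAt_inner h hf hw ha hO
    rw [e2, hfl _ (snd_mem_TS h.sub (hwt t)) _ (fst_mem_TS (hwt t) (hat t)),
      add_sub_cancel_right] at h1
    exact h1
  have e4 : ∀ t, ⟪(fderiv ℝ (Φ t) w a).1, (fderiv ℝ (Φ t) w a).2⟫_ℝ = ‖ξ‖ ^ 2 * t := by
    intro t
    have h1 : ∀ t, HasDerivAt (fun t => ⟪(fderiv ℝ (Φ t) w a).1, (fderiv ℝ (Φ t) w a).2⟫_ℝ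
        - ‖ξ‖ ^ 2 * t) 0 t := by
      intro t
      have h2 := (e3 t).sub ((hasDerivAt_id t).const_mul (‖ξ‖ ^ 2))
      rw [mul_one, sub_self] at h2
      exact h2
    have h3 := is_const_of_deriv_eq_zero (fun t => (h1 t).differentiableAt)
      (fun t => (h1 t).deriv) t 0
    simp only [hid] at h3
    have h4 : ⟪a.1, a.2⟫_ℝ = 0 := inner_zero_left _
    rw [h4] at h3
    linarith
  intro t
  have h1 : ∀ t, HasDerivAt (fun t => ⟪(fderiv ℝ (Φ t) w a).1, (fderiv ℝ (Φ t) w a).1⟫_ℝ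
      - ‖ξ‖ ^ 2 * t ^ 2) 0 t := by
    intro t
    have d1 := hasDerivAt_jac h w a t
    have d2 : HasDerivAt (fun t => (fderiv ℝ (Φ t) w a).1) (fderiv ℝ (Φ t) w a).2 t :=
      (ContinuousLinearMap.fst ℝ E E).hasFDerivAt.comp_hasDerivAt t d1
    have d3 := (d2.inner ℝ d2).sub ((hasDerivAt_pow 2 t).const_mul (‖ξ‖ ^ 2))
    have h5 : ⟪(fderiv ℝ (Φ t) w a).1, (fderiv ℝ (Φ t) w a).2⟫_ℝ
        + ⟪(fderiv ℝ (Φ t) w a).2, (fderiv ℝ (Φ t) w a).1⟫_ℝ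
        - ‖ξ‖ ^ 2 * ((2 : ℕ) * t ^ (2 - 1)) = 0 := by
      rw [real_inner_comm (fderiv ℝ (Φ t) w a).1 (fderiv ℝ (Φ t) w a).2, e4]
      push_cast
      ring
    rw [h5] at d3
    exact d3
  have h3 := is_const_of_deriv_eq_zero (fun t => (h1 t).differentiableAt)
    (fun t => (h1 t).deriv) t 0
  simp only [hid] at h3
  have h4 : ⟪a.1, a.1⟫_ℝ = 0 := inner_zero_left _
  rw [h4, real_inner_self_eq_norm_sq] at h3
  have h5 : ‖(fderiv ℝ (Φ t) w a).1‖ ^ 2 = (|t| * ‖ξ‖) ^ 2 := by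
    rw [mul_pow, sq_abs]; linarith
  exact (sq_eq_sq₀ (norm_nonneg _) (by positivity)).1 h5

end Pool.Agent.H62.S7
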