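import Pool.Agent.H59.Zar.Om

/-!
# The second fundamental form: Gauss and Weingarten formulas, all ambient
-/

set_option autoImplicit false
set_option linter.unusedSectionVars false

open scoped Topology ContDiff InnerProductSpace
open Set Filter

namespace Pool.Agent.H62.S7

open Pool.Agent.H91.GE Pool.Agent.H59.LV Pool.Agent.H59.ND Pool.Agent.H59.Zar

variable {E F : Type*} [NormedAddCommGroup E] [InnerProductSpace ℝ E] [FiniteDimensional ℝ E]
  [NormedAddCommGroup F] [InnerProductSpace ℝ F] [FiniteDimensional ℝ F]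
  {S : Set E} {A : E × E → E} {K K₂ : NNReal} {Φ : ℝ → E × E → E × E} {n : ℕ}

/-- The second fundamental form in terms of local equations. -/
noncomputable def II (f : E → F) (y a b : E) : E :=
  -(Rinv (fderiv ℝ f y) (fderiv ℝ (fderiv ℝ f) y a b))

/-- The tangential projection in terms of local equations. -/
noncomputable def PT (f : E → F) (y a : E) : E := a - Rinv (fderiv ℝ f y) (fderiv ℝ f y a)

variable {O : Set E} {f : E → F}

theorem PT_of_tan {y a : E} (h : fderiv ℝ f y a = 0) : PT f y a = a := by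
  unfold PT
  rw [h, map_zero, sub_zero]

theorem fderiv_PT {y : E} (hs : Function.Surjective (fderiv ℝ f y)) (a : E) :
    fderiv ℝ f y (PT f y a) = 0 := by
  unfold PT
  rw [map_sub, comp_Rinv hs, sub_self]

theorem PT_add (y a b : E) : PT f y (a + b) = PT f y a + PT f y b := by
  unfold PT
  rw [map_add, map_add]; abel

theorem PT_smul (y : E) (c : ℝ) (a : E) : PT f y (c • a) = c • PT f y a := by
  unfold PT
  rw [map_smul, map_smul, smul_sub]

theorem II_add_left (y a b c : E) : II f y (a + b) c = II f y a c + II f y b c := by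
  unfold II
  rw [map_add, ContinuousLinearMap.add_apply, map_add]; abel

theorem II_add_right (y a b c : E) : II f y a (b + c) = II f y a b + II f y a c := by
  unfold II
  rw [map_add, map_add]; abel

theorem II_smul_left (y : E) (r : ℝ) (a c : E) : II f y (r • a) c = r • II f y a c := by
  unfold II
  rw [map_smul, ContinuousLinearMap.smul_apply, map_smul, smul_neg]

theorem II_smul_right (y : E) (r : ℝ) (a c : E) : II f y a (r • c) = r • II f y a c := by
  unfold II
  rw [map_smul, map_smul, smul_neg]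

theorem II_symm (hf : IsLoc S O f) {y : E} (hy : y ∈ O) (a b : E) : II f y a b = II f y b a := by
  unfold II
  have hsym : IsSymmSndFDerivAt ℝ f y := (hf.contDiffAt hy).isSymmSndFDerivAt
    (by rw [minSmoothness_of_isRCLikeNormedField]; exact WithTop.coe_le_coe.2 le_top)
  rw [hsym.eq a b]

/-- The second fundamental form is normal. -/
theorem inner_II {y e : E} (a b : E) (he : fderiv ℝ f y e = 0) : ⟪II f y a b, e⟫_ℝ = 0 := by
  unfold II
  rw [inner_neg_left, inner_Rinv _ he, neg_zero]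

/-- A normal vector sees only the normal part. -/
theorem inner_normal {y ν : E} (hs : Function.Surjective (fderiv ℝ f y))
    (hν : ∀ e, fderiv ℝ f y e = 0 → ⟪ν, e⟫_ℝ = 0) (z : E) :
    ⟪ν, z⟫_ℝ = ⟪ν, Rinv (fderiv ℝ f y) (fderiv ℝ f y z)⟫_ℝ := by
  have h1 := hν _ (fderiv_PT hs z)
  unfold PT at h1
  rw [inner_sub_right] at h1
  linarith

theorem contDiffAt_PT (hf : IsLoc S O f) {y : E} (hy : y ∈ O) (e : E) :
    ContDiffAt ℝ ∞ (fun y => PT f y e) y := by
  have h1 : ContDiffAt ℝ ∞ (fderiv ℝ f) y := (hf.contDiffAt hy).fderiv_right (by norm_num)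
  have h2 : ContDiffAt ℝ ∞ (fun y => Rinv (fderiv ℝ f y)) y :=
    ContDiffAt.comp y (g := Rinv) (f := fderiv ℝ f) (contDiffAt_Rinv (hf.surj y hy)) h1
  exact contDiffAt_const.sub (h2.clm_apply (h1.clm_apply contDiffAt_const))

/-- The derivative of the projection of a constant vector. -/
theorem deriv_PT (hf : IsLoc S O f) {y : E} (hy : y ∈ O) {e : E} (he : fderiv ℝ f y e = 0)
    (u : E) : fderiv ℝ f y (fderiv ℝ (fun y => PT f y e) y u)
      = -(fderiv ℝ (fderiv ℝ f) y u e) := by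
  have h1 : HasFDerivAt (fderiv ℝ f) (fderiv ℝ (fderiv ℝ f) y) y :=
    (((hf.contDiffAt hy).fderiv_right (m := ∞) (by norm_num)).differentiableAt
      (by simp)).hasFDerivAt
  have h2 : HasFDerivAt (fun y => PT f y e) (fderiv ℝ (fun y => PT f y e) y) y :=
    ((contDiffAt_PT hf hy e).differentiableAt (by simp)).hasFDerivAt
  have h3 := h1.clm_apply h2
  have h4 : (fun y => fderiv ℝ f y (PT f y e)) =ᶠ[𝓝 y] fun _ => 0 := by
    filter_upwards [hf.isOpen.mem_nhds hy] with z hz
    exact fderiv_PT (hf.surj z hz) e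
  have h5 : HasFDerivAt (fun y => fderiv ℝ f y (PT f y e)) (0 : E →L[ℝ] F) y :=
    (hasFDerivAt_const (0 : F) y).congr_of_eventuallyEq h4
  have h6 := congrArg (fun L : E →L[ℝ] F => L u) (h3.unique h5)
  simp only [ContinuousLinearMap.add_apply, ContinuousLinearMap.comp_apply,
    ContinuousLinearMap.flip_apply, ContinuousLinearMap.zero_apply] at h6
  rw [PT_of_tan he] at h6
  exact eq_neg_of_add_eq_zero_left h6

/-- The normal part of the derivative of the projection of a tangent vector. -/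
theorem inner_deriv_PT (hf : IsLoc S O f) {y ν : E} (hy : y ∈ O)
    (hν : ∀ e, fderiv ℝ f y e = 0 → ⟪ν, e⟫_ℝ = 0) {e : E} (he : fderiv ℝ f y e = 0) (u : E) :
    ⟪ν, fderiv ℝ (fun y => PT f y e) y u⟫_ℝ = ⟪ν, II f y u e⟫_ℝ := by
  rw [inner_normal (hf.surj y hy) hν, deriv_PT hf hy he]
  unfold II
  rw [map_neg]

/-- **Weingarten's formula** along a curve. -/
theorem weingarten (hf : IsLoc S O f) {ν c : ℝ → E} {ν' c' : E} {t : ℝ}
    (hν : HasDerivAt ν ν' t) (hc : HasDerivAt c c' t) (ht : c t ∈ O)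
    (hn : ∀ᶠ s in 𝓝 t, ∀ e, fderiv ℝ f (c s) e = 0 → ⟪ν s, e⟫_ℝ = 0) {e : E}
    (he : fderiv ℝ f (c t) e = 0) : ⟪ν', e⟫_ℝ = -⟪ν t, II f (c t) c' e⟫_ℝ := by
  have h2 : HasFDerivAt (fun y => PT f y e) (fderiv ℝ (fun y => PT f y e) (c t)) (c t) :=
    ((contDiffAt_PT hf ht e).differentiableAt (by simp)).hasFDerivAt
  have h3 : HasDerivAt (fun s => PT f (c s) e) (fderiv ℝ (fun y => PT f y e) (c t) c') t :=
    h2.comp_hasDerivAt t hc
  have h4 := hν.inner ℝ h3
  have hO : ∀ᶠ s in 𝓝 t, c s ∈ O := hc.continuousAt.preimage_mem_nhds (hf.isOpen.mem_nhds ht)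
  have h5 : (fun s => ⟪ν s, PT f (c s) e⟫_ℝ) =ᶠ[𝓝 t] fun _ => 0 := by
    filter_upwards [hn, hO] with s hs hsO
    exact hs _ (fderiv_PT (hf.surj _ hsO) e)
  have h6 := h4.unique ((hasDerivAt_const t (0 : ℝ)).congr_of_eventuallyEq h5)
  rw [inner_deriv_PT hf ht hn.self_of_nhds he, PT_of_tan he] at h6
  linarith

/-- **Gauss' formula** for the acceleration field. -/
theorem gauss (h : GFlow F S A K K₂ Φ) (hf : IsLoc S O f) {w a : E × E} (hw : w ∈ UT S)
    (hO : w.1 ∈ O) (ha : a ∈ ZT (UT S) w) {e : E} (he : e ∈ ZT S w.1) :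
    ⟪fderiv ℝ A w a, e⟫_ℝ = -⟪A w, II f w.1 a.1 e⟫_ℝ := by
  have hx := fst_mem_TSet hw.1
  have he' : fderiv ℝ f w.1 e = 0 := (mem_TS' hf hx hO).1 he
  have hopen : IsOpen {q : E × E | q.1 ∈ O} := hf.isOpen.preimage continuous_fst
  have hAd : ContDiff ℝ ∞ A := h.field.smooth
  have hsm : ContDiffOn ℝ ∞ (fun q : E × E => ⟪A q, PT f q.1 e⟫_ℝ) {q : E × E | q.1 ∈ O} := by
    intro q hq
    have h1 : ContDiffAt ℝ ∞ (fun q : E × E => PT f q.1 e) q :=
      ContDiffAt.comp q (g := fun y => PT f y e) (f := Prod.fst) (contDiffAt_PT hf hq e)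
        contDiffAt_fst
    exact (hAd.contDiffAt.inner ℝ h1).contDiffWithinAt
  have h0 := fderiv_eq_zero (R := UT S) (f := fun q : E × E => ⟪A q, PT f q.1 e⟫_ℝ) (p := w)
    (a := a) (hopen.mem_nhds hO) hsm (fun q hq hqO => by
      have hqx := fst_mem_TSet hq.1
      exact inner_A h hq ((mem_TS' hf hqx hqO).2 (fderiv_PT (hf.surj _ hqO) e))) ha
  have d1 : HasFDerivAt A (fderiv ℝ A w) w := (hAd.differentiable (by simp) w).hasFDerivAt
  have d2 : HasFDerivAt (fun y => PT f y e) (fderiv ℝ (fun y => PT f y e) w.1) w.1 :=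
    ((contDiffAt_PT hf hO e).differentiableAt (by simp)).hasFDerivAt
  have d3 : HasFDerivAt (fun q : E × E => PT f q.1 e)
      ((fderiv ℝ (fun y => PT f y e) w.1).comp (ContinuousLinearMap.fst ℝ E E)) w :=
    HasFDerivAt.comp w (g := fun y => PT f y e) (f := Prod.fst) d2 hasFDerivAt_fst
  have d4 := d1.inner ℝ d3
  rw [d4.fderiv] at h0
  simp only [ContinuousLinearMap.comp_apply, ContinuousLinearMap.prod_apply,
    fderivInnerCLM_apply, ContinuousLinearMap.coe_fst'] at h0
  have hν : ∀ e, fderiv ℝ f w.1 e = 0 → ⟪A w, e⟫_ℝ = 0 := fun e he =>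
    inner_A h hw ((mem_TS' hf hx hO).2 he)
  rw [inner_deriv_PT hf hO hν he', PT_of_tan he'] at h0
  linarith

/-- The acceleration is the second fundamental form. -/
theorem A_eq (h : GFlow F S A K K₂ Φ) (hf : IsLoc S O f) {w : E × E} (hw : w ∈ UT S)
    (hO : w.1 ∈ O) : A w = II f w.1 w.2 w.2 :=
  h.field.eq w hw.1 (by rw [hw.2]; norm_num) O f hf hO

theorem dA_eq_II (h : GFlow F S A K K₂ Φ) (hf : IsLoc S O f) {w : E × E} (hw : w ∈ UT S)
    (hO : w.1 ∈ O) {u : E} (hu : u ∈ ZT S w.1) :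
    (1 / 2 : ℝ) • fderiv ℝ A w (0, u) = II f w.1 u w.2 := by
  rw [dA_eq h hf hw hO hu]
  unfold II
  module

end Pool.Agent.H62.S7
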